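import Mathlib
import Pool.Agent.H344.SC.Final

/-!
# Simple-curve diameters of the lower central quotients of surface groups

The sequence `d n` of diameters of `π / π n` with respect to the simple closed curves is bounded
for every orientable surface of positive genus, and its limit is determined: it is `2 * g + p` if
there are `p ≥ 1` punctures, `2 * g + 1` for the closed surface of genus `g ≥ 2`, and `2` for the
torus.  In genus `0` the group is trivial if `p ≤ 1`, and all diameters with `n ≥ 1` are infinite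
if `p ≥ 2`.
-/

namespace Pool.Agent.Results.MP_038aca_al.CurveDiameters

open Pool.Agent.H344.SC

theorem result :
    (∀ g p : ℕ, 1 ≤ g → 1 ≤ p →
      (∀ n, curveDiameter g p n ≤ (2 * g + p : ℕ)) ∧
        ∃ n₀, ∀ n, n₀ ≤ n → curveDiameter g p n = (2 * g + p : ℕ)) ∧
    (∀ g : ℕ, 2 ≤ g →
      (∀ n, curveDiameter g 0 n ≤ (2 * g + 1 : ℕ)) ∧
        ∃ n₀, ∀ n, n₀ ≤ n → curveDiameter g 0 n = (2 * g + 1 : ℕ)) ∧
    (∀ n, 1 ≤ n → curveDiameter 1 0 n = 2) ∧
    (∀ p n, 2 ≤ p → 1 ≤ n → curveDiameter 0 p n = ⊤) ∧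
    (∀ p n, p ≤ 1 → curveDiameter 0 p n = 0) := by
  refine ⟨?_, ?_, fun n hn => torus_main hn, ?_, ?_⟩
  · intro g p hg hp
    obtain ⟨g, rfl⟩ : ∃ g', g = g' + 1 := ⟨g - 1, by omega⟩
    obtain ⟨p, rfl⟩ : ∃ p', p = p' + 1 := ⟨p - 1, by omega⟩
    exact main_of (r := 2 * (g + 1) + p) (covered_punctured g p)
      (not_covered_punctured (by omega) p)
  · intro g hg
    obtain ⟨g, rfl⟩ : ∃ g', g = g' + 1 := ⟨g - 1, by omega⟩
    exact main_of (r := 2 * (g + 1)) (covered_closed g) (not_covered_closed hg)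
  · intro p n hp hn
    obtain ⟨p, rfl⟩ : ∃ p', p = p' + 2 := ⟨p - 2, by omega⟩
    exact sphere_main p hn
  · intro p n hp
    rcases p with _ | _ | p
    · exact sphere_zero n
    · exact sphere_one n
    · omega

end Pool.Agent.Results.MP_038aca_al.CurveDiameters
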